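import Mathlib
import Pool.Agent.V1130.BalE

/-!
# The gap above `1/3` for posets with a nontrivial automorphism

`prob` and `balance` are the probabilities and the balance constant of the problem.  Let `P` be a
finite poset.

* If `x` lies in an orbit of size `m ≥ 2` of an automorphism `α`, then `x` comes before `α x`, and
  `α x` before `x`, with probability at least `(1 - 1/m)^(m-1)`.
* If the prime `p` divides the order of the automorphism group of `P`, or of an autonomous subset of
  `P`, then `δ(P) ≥ (1 - 1/p)^(p-1)`; this is `1/2` for `p = 2` and `4/9` for `p = 3`.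
* If `P`, or an autonomous subset of `P`, has a nontrivial automorphism, then `δ(P) > 1/e`, and
  `1/e = 0.3678...` is larger than `β = 0.3488...`.

Proof.  The order polytope is a convex body in the space of functions on `P`.  Collapse the orbit of
`x`: the space is a product of the space `W` of functions on the orbit with sum zero, of dimension
`m - 1`, and the space of functions constant on the orbit.  By the inequality of Prekopa and Leindler
the volume of the slices over `W` is a function with convex superlevel sets, and these sets are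
invariant under the rotation of the orbit.  For such a convex set `C` of dimension `d = m - 1`, let
`φ(t)` be the `d`-th root of the volume of the part of `C` where `f x - f (α x) ≤ t`.  By the
Brunn-Minkowski inequality `φ` is concave; the values of `f x - f (α x)` at the rotations of a point
have sum zero, and so the mean of `φ` over `C` is at most `φ(0)`.  The mean is at least `d / (d + 1)`
times the `d`-th root of the volume of `C`.
-/

set_option autoImplicit false

namespace Pool.Agent.Results.MP_33fb9b_co.AutomorphismGap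

open Pool.Agent.H13R3.WB Pool.Agent.H931R3.Bal

lemma frac (m : ℕ) (k : ℕ) (h : m = k + 1) :
    ((k : ℝ) / ((k : ℝ) + 1)) ^ k = (1 - 1 / (m : ℝ)) ^ (m - 1) := by
  subst h
  rw [Nat.add_sub_cancel]
  congr 1
  push_cast
  have : (k : ℝ) + 1 ≠ 0 := by positivity
  field_simp
  ring

lemma exp_lt (k : ℕ) (hk : 1 ≤ k) : Real.exp (-1) < ((k : ℝ) / ((k : ℝ) + 1)) ^ k := by
  have hk0 : (0 : ℝ) < k := by exact_mod_cast hk
  have h1 : (1 : ℝ) / k + 1 < Real.exp (1 / k) := Real.add_one_lt_exp (by positivity)
  have h2 : ((1 : ℝ) / k + 1) ^ k < Real.exp 1 := by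
    calc ((1 : ℝ) / k + 1) ^ k < (Real.exp (1 / k)) ^ k :=
          pow_lt_pow_left₀ h1 (by positivity) (by omega)
      _ = Real.exp 1 := by
          rw [← Real.exp_nat_mul]
          congr 1
          field_simp
  have h3 : ((k : ℝ) / ((k : ℝ) + 1)) ^ k = (((1 : ℝ) / k + 1) ^ k)⁻¹ := by
    rw [← inv_pow]
    congr 1
    field_simp
    ring
  rw [h3, Real.exp_neg]
  exact inv_strictAnti₀ (by positivity) h2

lemma orbit (P : Type) [Fintype P] [PartialOrder P] (α : P ≃o P) (x : P) (hx : α x ≠ x) :
    ∃ k : ℕ, 1 ≤ k ∧ Function.minimalPeriod α x = k + 1 ∧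
      ((k : ℝ) / ((k : ℝ) + 1)) ^ k ≤ prob P x (α x) ∧
      ((k : ℝ) / ((k : ℝ) + 1)) ^ k ≤ prob P (α x) x := by
  classical
  have hpos : 0 < Function.minimalPeriod α x :=
    Function.minimalPeriod_pos_of_mem_periodicPts (α.injective.mem_periodicPts x)
  have hne : Function.minimalPeriod α x ≠ 1 := fun h =>
    hx (Function.minimalPeriod_eq_one_iff_isFixedPt.1 h)
  refine ⟨Function.minimalPeriod α x - 1, by omega, by omega, ?_⟩
  exact Pool.Agent.V1130.Bal.orbit_prob α x _ (by omega) (by omega)

lemma pow_coe {P : Type} [PartialOrder P] (α : P ≃o P) (n : ℕ) (x : P) :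
    (α ^ n) x = (⇑α)^[n] x := by
  induction n with
  | zero => rfl
  | succ n ih => rw [pow_succ', Function.iterate_succ_apply', ← ih]; rfl

lemma prime_case (P : Type) [Fintype P] [PartialOrder P] (p : ℕ) (hp : p.Prime)
    (hd : p ∣ Nat.card (P ≃o P)) : (1 - 1 / (p : ℝ)) ^ (p - 1) ≤ balance P := by
  have hfin : Finite (P ≃o P) := Finite.of_injective (fun α : P ≃o P => (α : P → P))
    DFunLike.coe_injective
  have : Fact p.Prime := ⟨hp⟩
  obtain ⟨α, hα⟩ := exists_prime_orderOf_dvd_card' p hd
  have hne : α ≠ 1 := by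
    intro h
    rw [h, orderOf_one] at hα
    exact hp.one_lt.ne hα
  obtain ⟨x, hx⟩ : ∃ x, α x ≠ x := by
    by_contra hcon
    push Not at hcon
    exact hne (DFunLike.ext _ _ hcon)
  obtain ⟨k, hk1, hk2, h1, h2⟩ := orbit P α x hx
  have hper : Function.IsPeriodicPt α p x := by
    show (⇑α)^[p] x = x
    rw [← pow_coe, ← hα, pow_orderOf_eq_one]
    rfl
  have hdvd : k + 1 ∣ p := by
    rw [← hk2]
    exact hper.minimalPeriod_dvd
  have hpk : p = k + 1 := by
    rcases (Nat.dvd_prime hp).1 hdvd with h | h
    · omega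
    · exact h.symm
  rw [← frac p k hpk]
  exact (le_min h1 h2).trans (le_balance x (α x))

lemma nontrivial_case (P : Type) [Fintype P] [PartialOrder P]
    (h : ∃ (α : P ≃o P) (x : P), α x ≠ x) : Real.exp (-1) < balance P := by
  obtain ⟨α, x, hx⟩ := h
  obtain ⟨k, hk1, hk2, h1, h2⟩ := orbit P α x hx
  exact (exp_lt k hk1).trans_le ((le_min h1 h2).trans (le_balance x (α x)))

theorem result :
    -- orbits of automorphisms
    (∀ (P : Type) [Fintype P] [PartialOrder P] (α : P ≃o P) (x : P), α x ≠ x →
      (1 - 1 / (Function.minimalPeriod α x : ℝ)) ^ (Function.minimalPeriod α x - 1) ≤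
        prob P x (α x) ∧
      (1 - 1 / (Function.minimalPeriod α x : ℝ)) ^ (Function.minimalPeriod α x - 1) ≤
        prob P (α x) x) ∧
    -- prime divisors of the order of the automorphism group
    (∀ (P : Type) [Fintype P] [PartialOrder P] (p : ℕ), p.Prime →
      (p ∣ Nat.card (P ≃o P) ∨ ∃ M : Set P, Autonomous M ∧ p ∣ Nat.card (M ≃o M)) →
      (1 - 1 / (p : ℝ)) ^ (p - 1) ≤ balance P) ∧
    -- nontrivial automorphisms
    (∀ (P : Type) [Fintype P] [PartialOrder P],
      ((∃ (α : P ≃o P) (x : P), α x ≠ x) ∨
        ∃ M : Set P, Autonomous M ∧ ∃ (α : M ≃o M) (x : M), α x ≠ x) →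
      Real.exp (-1) < balance P) ∧
    -- comparison with the constant of the problem
    (5864893 + 27 * √57) / 16812976 < Real.exp (-1) := by
  classical
  refine ⟨?_, ?_, ?_, ?_⟩
  · intro P _ _ α x hx
    obtain ⟨k, hk1, hk2, h1, h2⟩ := orbit P α x hx
    have h3 := frac (k + 1) k rfl
    rw [hk2]
    rw [h3] at h1 h2
    exact ⟨h1, h2⟩
  · intro P _ _ p hp h
    rcases h with h | ⟨M, hM, h⟩
    · exact prime_case P p hp h
    · have hne : Nonempty M := by
        by_contra hcon
        rw [not_nonempty_iff] at hcon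
        have : Subsingleton (M ≃o M) := ⟨fun a b => DFunLike.ext _ _ fun x => (hcon.false x).elim⟩
        have h1 : Nat.card (M ≃o M) = 1 := Nat.card_eq_one_iff_unique.2 ⟨this, ⟨OrderIso.refl M⟩⟩
        rw [h1] at h
        exact hp.one_lt.ne' (Nat.dvd_one.1 h)
      exact (prime_case M p hp h).trans (balance_autonomous hM)
  · intro P _ _ h
    rcases h with h | ⟨M, hM, α, x, hx⟩
    · exact nontrivial_case P h
    · have hne : Nonempty M := ⟨x⟩
      exact (nontrivial_case M ⟨α, x, hx⟩).trans_le (balance_autonomous hM)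
  · have h1 : Real.exp 1 < 2.7182818286 := Real.exp_one_lt_d9
    have h2 : √57 < 7.55 := by
      rw [Real.sqrt_lt' (by norm_num)]
      norm_num
    have h3 : (0.36 : ℝ) < Real.exp (-1) := by
      rw [Real.exp_neg, lt_inv_comm₀ (by norm_num) (Real.exp_pos 1)]
      exact h1.trans (by norm_num)
    refine lt_trans ?_ h3
    rw [div_lt_iff₀ (by norm_num)]
    linarith

end Pool.Agent.Results.MP_33fb9b_co.AutomorphismGap
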