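import Pool.Agent.V114.PosH.Fin

/-!
# The gap above `1/3` for posets with two elements of nearly equal average height

`prob P x y` (the probability that `x` comes before `y`) and `balance P` (the balance constant) are
those of the problem; `height P x` is the mean of the position `0, 1, ..., |P| - 1` of `x` in a random
linear extension of `P`.

(1) Every incomparable pair, of any finite poset, is put in either order with probability at least
`exp (-1 - |height x - height y|)`.  (2) If two different elements have average heights that differ by
at most `2/5`, then `balance P ≥ 1/3 + 1/5000`.  (3) If they differ by at most `1/5`, then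
`balance P ≥ 7/20`, which is larger than the number `β = 0.34884...` of the problem.  (4) If two
different elements have the same average height, then `balance P ≥ 1/e = 0.36787...`.  So this holds
(5) if `P` has an anti-automorphism with two fixed points.  (It also holds if `P` has an automorphism
other than the identity; this case is contained in the hand-in `AutomorphismGap` of this problem.)

So the conjectured gap (Q1, in (3)-(5) even with a constant beyond `β`) holds for all these posets, of
any width, and in a poset whose balance constant is smaller than `1/3 + 1/5000` all average heights are
more than `2/5` apart.  Felsner and Trotter (1993) proved `balance P ≥ 1/3` if the average heights differ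
by at most `2/3`; the question is about constants above `1/3`.

Proof.  The inequalities of the starting library for the gap of two elements (obtained there from
the log-concavity of the gap in random order preserving maps and from exchange inequalities for gaps
two and three) are freed from their error term `1/n` by adding a long chain on top of the poset.  They
are then combined: if `b` is the probability of the reversed order, `R = r b` the probability that the
pair is reversed and adjacent, and `t` the difference of the average heights, then
`v - b e^v ≤ r t` for all `v ≥ 0`, and `r t` is at least `r (5/2 (1 - b) - 2 r b) - b`,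
`r (3 (1 - b) - 4 r b) - b` and `r (7/2 (1 - b) - 13/2 r b) - b`.
-/

set_option autoImplicit false

namespace Pool.Agent.Results.MP_33fb9b_co.CloseHeights

open Pool.Agent.H13R3.WB Pool.Agent.V114.PosH

theorem result :
    -- (1) all incomparable pairs
    (∀ (P : Type) [Fintype P] [PartialOrder P] (x y : P), ¬ x ≤ y → ¬ y ≤ x →
      Real.exp (-(1 + |height P x - height P y|)) ≤ min (prob P x y) (prob P y x)) ∧
    -- (2) average heights that differ by at most `2/5`
    (∀ (P : Type) [Fintype P] [PartialOrder P] (x y : P), x ≠ y →
      |height P x - height P y| ≤ 2 / 5 → 1 / 3 + 1 / 5000 ≤ balance P) ∧
    -- (3) average heights that differ by at most `1/5`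
    (∀ (P : Type) [Fintype P] [PartialOrder P] (x y : P), x ≠ y →
      |height P x - height P y| ≤ 1 / 5 → 7 / 20 ≤ balance P) ∧
    -- (4) equal average heights
    (∀ (P : Type) [Fintype P] [PartialOrder P] (x y : P), x ≠ y → height P x = height P y →
      Real.exp (-1) ≤ balance P) ∧
    -- (5) posets with an anti-automorphism with two fixed points
    (∀ (P : Type) [Fintype P] [PartialOrder P] (e : P ≃o Pᵒᵈ) (x y : P), x ≠ y →
      e x = OrderDual.toDual x → e y = OrderDual.toDual y → Real.exp (-1) ≤ balance P) :=
  ⟨fun _ _ _ _ _ h1 h2 => t_exp h1 h2, fun _ _ _ _ _ hne h => t_two_fifths hne h,
    fun _ _ _ _ _ hne h => t_one_fifth hne h, fun _ _ _ _ _ hne h => t_equal hne h,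
    fun _ _ _ e _ _ hne hx hy => t_anti_fixed e hne hx hy⟩

end Pool.Agent.Results.MP_33fb9b_co.CloseHeights
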